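import Pool.Agent.H56.KAL.Stmts

/-!
# Remez inequality for sets of integers
-/

set_option autoImplicit false

namespace Pool.KAL

open Finset Real

namespace RMG

lemma gap {n : ℕ} (f : Fin n ↪o ℤ) {a b : Fin n} (h : a < b) :
    ((b : ℕ) : ℤ) - (a : ℕ) ≤ f b - f a := by
  have h1 : (Finset.Icc a b).image f ⊆ Finset.Icc (f a) (f b) := by
    intro x hx
    obtain ⟨c, hc, rfl⟩ := Finset.mem_image.1 hx
    rw [Finset.mem_Icc] at hc ⊢
    exact ⟨f.monotone hc.1, f.monotone hc.2⟩
  have h2 := Finset.card_le_card h1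
  rw [Finset.card_image_of_injective _ f.injective, Fin.card_Icc, Int.card_Icc] at h2
  have h3 : f a < f b := f.strictMono h
  have h4 : (a : ℕ) < b := h
  omega

/-- Lagrange interpolation with separated nodes. -/
lemma lagrange_bound (k : ℕ) (P : Polynomial ℝ) (v : Fin (k + 1) → ℝ) (t B s M : ℝ)
    (hP : P.natDegree ≤ k) (hs : 0 < s) (hv : ∀ i j, i ≠ j → s ≤ |v i - v j|)
    (ht : ∀ i, |t - v i| ≤ B) (hM : ∀ i, |P.eval (v i)| ≤ M) :
    |P.eval t| ≤ ((k : ℝ) + 1) * (B / s) ^ k * M := by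
  classical
  have hinj : Set.InjOn v (Finset.univ : Finset (Fin (k + 1))) := by
    intro i _ j _ hij
    by_contra hne
    have := hv i j hne
    rw [hij, sub_self, abs_zero] at this
    linarith
  have hdeg : P.degree < (Finset.univ : Finset (Fin (k + 1))).card := by
    rw [Finset.card_univ, Fintype.card_fin]
    refine lt_of_le_of_lt Polynomial.degree_le_natDegree ?_
    exact_mod_cast Nat.lt_succ_of_le hP
  have hB : 0 ≤ B := (abs_nonneg _).trans (ht 0)
  have hM0 : 0 ≤ M := (abs_nonneg _).trans (hM 0)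
  have e1 := Lagrange.eq_interpolate hinj hdeg
  have e2 : P.eval t = ∑ i, P.eval (v i) * (Lagrange.basis Finset.univ v i).eval t := by
    conv_lhs => rw [e1]
    rw [Lagrange.interpolate_apply, Polynomial.eval_finsetSum]
    refine Finset.sum_congr rfl fun i _ => ?_
    rw [Polynomial.eval_mul, Polynomial.eval_C]
  have e3 : ∀ i, |(Lagrange.basis Finset.univ v i).eval t| ≤ (B / s) ^ k := by
    intro i
    unfold Lagrange.basis
    rw [Polynomial.eval_prod, Finset.abs_prod]
    have h1 : ∀ j ∈ Finset.univ.erase i,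
        |(Lagrange.basisDivisor (v i) (v j)).eval t| ≤ B / s := by
      intro j hj
      have hne : i ≠ j := fun h => (Finset.mem_erase.1 hj).1 h.symm
      unfold Lagrange.basisDivisor
      rw [Polynomial.eval_mul, Polynomial.eval_C, Polynomial.eval_sub, Polynomial.eval_X,
        Polynomial.eval_C, abs_mul, abs_inv, div_eq_inv_mul]
      refine mul_le_mul ?_ (ht j) (abs_nonneg _) (by positivity)
      exact inv_anti₀ hs (hv i j hne)
    refine (Finset.prod_le_prod (fun j _ => abs_nonneg _) h1).trans ?_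
    rw [Finset.prod_const, Finset.card_erase_of_mem (Finset.mem_univ i), Finset.card_univ,
      Fintype.card_fin, Nat.add_sub_cancel]
  rw [e2]
  refine (Finset.abs_sum_le_sum_abs _ _).trans ?_
  have e4 : ∑ i, |P.eval (v i) * (Lagrange.basis Finset.univ v i).eval t| ≤
      ∑ _i : Fin (k + 1), M * (B / s) ^ k := by
    refine Finset.sum_le_sum fun i _ => ?_
    rw [abs_mul]
    exact mul_le_mul (hM i) (e3 i) (abs_nonneg _) hM0
  refine e4.trans ?_
  rw [Finset.sum_const, Finset.card_univ, Fintype.card_fin, nsmul_eq_mul]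
  push_cast
  linarith

end RMG

/-- **Remez inequality for sets of integers.** -/
theorem rmg_thm : RMGStmt := by
  intro k s P E t B M hP hs hcard hB hM
  have hs0 : (0 : ℝ) < s := by exact_mod_cast hs
  set f := E.orderEmbOfFin rfl with hf
  have hlt : ∀ i : Fin (k + 1), (i : ℕ) * s < E.card := by
    intro i
    have h1 : (i : ℕ) ≤ k := Nat.lt_succ_iff.1 i.2
    have h2 : (i : ℕ) * s ≤ k * s := Nat.mul_le_mul_right s h1
    have h3 : k * s = s * k := Nat.mul_comm k s
    omega
  set v : Fin (k + 1) → ℝ := fun i => (f ⟨(i : ℕ) * s, hlt i⟩ : ℝ) with hv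
  have hmem : ∀ i : Fin (k + 1), f ⟨(i : ℕ) * s, hlt i⟩ ∈ E := fun i =>
    Finset.orderEmbOfFin_mem E rfl _
  refine RMG.lagrange_bound k P v t B s M hP hs0 ?_ (fun i => hB _ (hmem i))
    fun i => hM _ (hmem i)
  have key : ∀ i j : Fin (k + 1), i < j → (s : ℝ) ≤ v j - v i := by
    intro i j hij
    have hij' : (i : ℕ) < j := hij
    have h1 : (i : ℕ) * s < (j : ℕ) * s := Nat.mul_lt_mul_of_pos_right hij' hs
    have h2 := RMG.gap f (a := ⟨(i : ℕ) * s, hlt i⟩) (b := ⟨(j : ℕ) * s, hlt j⟩) h1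
    have h3 : ((i : ℕ) + 1) * s ≤ (j : ℕ) * s := Nat.mul_le_mul_right s hij'
    have h4 : (s : ℤ) ≤ (((j : ℕ) * s : ℕ) : ℤ) - (((i : ℕ) * s : ℕ) : ℤ) := by
      have : (((i : ℕ) * s + s : ℕ) : ℤ) ≤ (((j : ℕ) * s : ℕ) : ℤ) := by
        rw [add_mul, one_mul] at h3
        exact_mod_cast h3
      push_cast at this ⊢
      linarith
    have h5 : (s : ℤ) ≤ f ⟨(j : ℕ) * s, hlt j⟩ - f ⟨(i : ℕ) * s, hlt i⟩ := h4.trans h2
    simp only [hv]
    exact_mod_cast h5
  intro i j hne
  rcases lt_or_gt_of_ne hne with h | h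
  · rw [abs_sub_comm]
    exact (key i j h).trans (le_abs_self _)
  · exact (key j i h).trans (le_abs_self _)

end Pool.KAL
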