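import Pool.Agent.H56.KAL.Stmts2

/-!
# Points where a polynomial is small and its derivative is not small
-/

set_option autoImplicit false

namespace Pool.KAL

open Finset Real

namespace IN4

/-- A separated set of points where the polynomial is small and the derivative is large. -/
def Good (P : Polynomial ℝ) (ε a : ℝ) (T : Finset ℝ) : Prop :=
  (∀ x ∈ T, |P.eval x| ≤ ε ∧ a ≤ |P.derivative.eval x|) ∧
    ∀ x ∈ T, ∀ y ∈ T, x < y → 2 * ε / a < y - x

lemma next_root (P : Polynomial ℝ) (ε a : ℝ) (ha : 0 < a) (T : Finset ℝ) (hT : Good P ε a T)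
    (x : ℝ) (hx : x ∈ T) (hy : ∃ y ∈ T, x < y) :
    P.derivative ^ 2 - Polynomial.C (a ^ 2) ≠ 0 ∧
    ∃ r, (P.derivative ^ 2 - Polynomial.C (a ^ 2)).IsRoot r ∧ x ≤ r ∧ ∀ y ∈ T, x < y → r < y := by
  have hne : (T.filter (fun y => x < y)).Nonempty := by
    obtain ⟨y, h1, h2⟩ := hy
    exact ⟨y, Finset.mem_filter.2 ⟨h1, h2⟩⟩
  set y := (T.filter (fun y => x < y)).min' hne with hydef
  have hyT := Finset.mem_filter.1 (Finset.min'_mem _ hne)
  rw [← hydef] at hyT
  obtain ⟨hy1, hy2⟩ := hyT
  obtain ⟨z, hz, hzd⟩ := exists_deriv_eq_slope (fun s => P.eval s) hy2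
    P.continuous.continuousOn (P.differentiable.differentiableOn)
  rw [Polynomial.deriv] at hzd
  have hxy : 0 < y - x := sub_pos.2 hy2
  have hz2 : |P.derivative.eval z| < a := by
    rw [hzd, abs_div, abs_of_pos hxy, div_lt_iff₀ hxy]
    have h1 := (hT.1 x hx).1
    have h2 := (hT.1 y hy1).1
    have h3 := hT.2 x hx y hy1 hy2
    rw [div_lt_iff₀ ha] at h3
    have h4 : |P.eval y - P.eval x| ≤ |P.eval y| + |P.eval x| := abs_sub _ _
    nlinarith
  have hQz : (P.derivative ^ 2 - Polynomial.C (a ^ 2)).eval z < 0 := by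
    rw [Polynomial.eval_sub, Polynomial.eval_pow, Polynomial.eval_C, ← sq_abs]
    nlinarith [abs_nonneg (P.derivative.eval z)]
  have hQx : 0 ≤ (P.derivative ^ 2 - Polynomial.C (a ^ 2)).eval x := by
    rw [Polynomial.eval_sub, Polynomial.eval_pow, Polynomial.eval_C, ← sq_abs]
    nlinarith [(hT.1 x hx).2]
  refine ⟨fun h => ?_, ?_⟩
  · rw [h, Polynomial.eval_zero] at hQz
    exact lt_irrefl _ hQz
  have hcont : ContinuousOn
      (fun s => (P.derivative ^ 2 - Polynomial.C (a ^ 2)).eval s) (Set.Icc x z) :=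
    (Polynomial.continuous _).continuousOn
  have hmem : (0 : ℝ) ∈ Set.Icc ((P.derivative ^ 2 - Polynomial.C (a ^ 2)).eval z)
      ((P.derivative ^ 2 - Polynomial.C (a ^ 2)).eval x) := ⟨hQz.le, hQx⟩
  obtain ⟨r, hr, hr0⟩ := intermediate_value_Icc' hz.1.le hcont hmem
  refine ⟨r, hr0, hr.1, fun y' hy' hxy' => ?_⟩
  have h1 : y ≤ y' := Finset.min'_le _ _ (Finset.mem_filter.2 ⟨hy', hxy'⟩)
  exact lt_of_le_of_lt hr.2 (lt_of_lt_of_le hz.2 h1)

lemma card_le (k : ℕ) (P : Polynomial ℝ) (ε a : ℝ) (hP : P.natDegree ≤ k) (ha : 0 < a)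
    (T : Finset ℝ) (hT : Good P ε a T) : T.card ≤ 2 * k := by
  classical
  rcases T.eq_empty_or_nonempty with h0 | hne
  · rw [h0]
    exact Nat.zero_le _
  have hk : 1 ≤ k := by
    by_contra hk
    have hk0 : P.natDegree = 0 := by omega
    obtain ⟨x, hx⟩ := hne
    have h1 := (hT.1 x hx).2
    rw [Polynomial.derivative_of_natDegree_zero hk0, Polynomial.eval_zero, abs_zero] at h1
    linarith
  rcases Nat.lt_or_ge 1 T.card with h1 | h1
  swap
  · omega
  set M := T.max' hne with hM
  have hMT : M ∈ T := Finset.max'_mem _ _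
  have hlt : ∀ x ∈ T.erase M, ∃ y ∈ T, x < y := by
    intro x hx
    obtain ⟨hx1, hx2⟩ := Finset.mem_erase.1 hx
    exact ⟨M, hMT, lt_of_le_of_ne (Finset.le_max' _ _ hx2) hx1⟩
  set Q := P.derivative ^ 2 - Polynomial.C (a ^ 2) with hQ
  have key : ∀ x ∈ T.erase M, Q ≠ 0 ∧
      ∃ r, Q.IsRoot r ∧ x ≤ r ∧ ∀ y ∈ T, x < y → r < y := fun x hx =>
    next_root P ε a ha T hT x (Finset.mem_of_mem_erase hx) (hlt x hx)
  have hcard : (T.erase M).card = T.card - 1 := Finset.card_erase_of_mem hMT
  have hQ0 : Q ≠ 0 := by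
    have : (T.erase M).Nonempty := by
      rw [← Finset.card_pos, hcard]
      omega
    obtain ⟨x, hx⟩ := this
    exact (key x hx).1
  choose! r hr using fun x hx => (key x hx).2
  have hinj : Set.InjOn r (T.erase M : Finset ℝ) := by
    intro x hx y hy hxy
    by_contra hne'
    rcases lt_or_gt_of_ne hne' with h | h
    · have e1 := (hr x hx).2.2 y (Finset.mem_of_mem_erase hy) h
      have e2 := (hr y hy).2.1
      rw [hxy] at e1
      linarith
    · have e1 := (hr y hy).2.2 x (Finset.mem_of_mem_erase hx) h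
      have e2 := (hr x hx).2.1
      rw [hxy] at e2
      linarith
  have hsub : (T.erase M).image r ⊆ Q.roots.toFinset := by
    intro s hs
    obtain ⟨x, hx, rfl⟩ := Finset.mem_image.1 hs
    rw [Multiset.mem_toFinset, Polynomial.mem_roots hQ0]
    exact (hr x hx).1
  have h2 : (T.erase M).card ≤ Q.natDegree := by
    rw [← Finset.card_image_of_injOn hinj]
    exact (Finset.card_le_card hsub).trans
      ((Multiset.toFinset_card_le _).trans (Polynomial.card_roots' _))
  have h3 : Q.natDegree ≤ 2 * (k - 1) := by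
    have e1 : P.derivative.natDegree ≤ k - 1 :=
      (Polynomial.natDegree_derivative_le P).trans (Nat.sub_le_sub_right hP 1)
    have e2 : (P.derivative ^ 2).natDegree ≤ 2 * (k - 1) :=
      Polynomial.natDegree_pow_le.trans (Nat.mul_le_mul_left 2 e1)
    refine (Polynomial.natDegree_sub_le _ _).trans (max_le e2 ?_)
    rw [Polynomial.natDegree_C]
    exact Nat.zero_le _
  omega

end IN4

open IN4 in
theorem in4_thm : IN4Stmt := by
  classical
  intro k P ε a hP _ ha
  have h0 : ∃ T : Finset ℝ, Good P ε a T ∧ T.card = 0 :=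
    ⟨∅, ⟨fun x hx => absurd hx (Finset.notMem_empty x),
      fun x hx => absurd hx (Finset.notMem_empty x)⟩, rfl⟩
  have hspec := Nat.findGreatest_spec (P := fun n => ∃ T : Finset ℝ, Good P ε a T ∧ T.card = n)
    (Nat.zero_le (2 * k)) h0
  set n := Nat.findGreatest (fun n => ∃ T : Finset ℝ, Good P ε a T ∧ T.card = n) (2 * k) with hn
  obtain ⟨F, hF, hFn⟩ := hspec
  refine ⟨F, ?_, fun x hx1 hx2 => ?_⟩
  · exact card_le k P ε a hP ha F hF
  by_contra hcon
  push Not at hcon
  have hxF : x ∉ F := by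
    intro hx
    have := hcon x hx
    rw [sub_self, abs_zero] at this
    have h2 : 0 ≤ 2 * ε / a := by
      have := (abs_nonneg _).trans hx1
      positivity
    linarith
  have hgood : Good P ε a (insert x F) := by
    refine ⟨fun y hy => ?_, fun y hy z hz hyz => ?_⟩
    · rcases Finset.mem_insert.1 hy with rfl | hy
      · exact ⟨hx1, hx2⟩
      · exact hF.1 y hy
    · rcases Finset.mem_insert.1 hy with hy | hy <;> rcases Finset.mem_insert.1 hz with hz | hz
      · rw [hy, hz] at hyz
        exact absurd hyz (lt_irrefl _)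
      · have := hcon z hz
        rw [hy] at hyz ⊢
        rw [abs_of_neg (by linarith)] at this
        linarith
      · have := hcon y hy
        rw [hz] at hyz ⊢
        rw [abs_of_pos (by linarith)] at this
        linarith
      · exact hF.2 y hy z hz hyz
  have hc : (insert x F).card = n + 1 := by
    rw [Finset.card_insert_of_notMem hxF, hFn]
  have hle := card_le k P ε a hP ha _ hgood
  rw [hc] at hle
  exact Nat.findGreatest_is_greatest (P := fun n => ∃ T : Finset ℝ, Good P ε a T ∧ T.card = n)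
    (n := 2 * k) (k := n + 1) (Nat.lt_succ_self n) hle ⟨_, hgood, hc⟩

end Pool.KAL
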